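import Mathlib
import Pool.Agent.TH913.MK.Q1

set_option autoImplicit false

/-!
# The size of the `n`th distinct Markoff number with error exponent `ε`

Let `m_n` be the `n`th Markoff number (distinct numbers, in increasing order), let `C` be the limit
of `M(N) / (log N)²`, where `M(N)` is the number of Markoff triples up to `N`, and let
`A = exp (1 / √C)`. Unconditionally (without the uniqueness conjecture)
`log m_n = √n log A + O(n^ε)` and the number of Markoff numbers up to `N` is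
`C (log N)² + O((log N)^(1 + ε))`, for every `ε > 0`.
-/

namespace Pool.Agent.Results.MP_94ab62_nt.EpsilonExponent

open Filter Asymptotics

/-- Markoff numbers: the entries of the solutions of `x² + y² + z² = 3 x y z` in positive
integers. -/
def IsMarkoff (m : ℕ) : Prop :=
  ∃ x y : ℕ, 0 < x ∧ 0 < y ∧ 0 < m ∧ x ^ 2 + y ^ 2 + m ^ 2 = 3 * x * y * m

/-- `m_n`, the `n`th Markoff number, `n ≥ 1` (the distinct Markoff numbers in increasing order) -/
noncomputable def markoff (n : ℕ) : ℕ := Nat.nth IsMarkoff (n - 1)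

/-- `M(N)`, the number of Markoff triples `x ≤ y ≤ z ≤ N` -/
def triples (N : ℕ) : ℕ :=
  ((Finset.Icc 1 N ×ˢ Finset.Icc 1 N ×ˢ Finset.Icc 1 N).filter
    (fun p : ℕ × ℕ × ℕ =>
      p.1 ≤ p.2.1 ∧ p.2.1 ≤ p.2.2 ∧
        p.1 ^ 2 + p.2.1 ^ 2 + p.2.2 ^ 2 = 3 * p.1 * p.2.1 * p.2.2)).card

/-- the number of Markoff numbers `m ≤ N` -/
noncomputable def numbers (N : ℕ) : ℕ := {m : ℕ | m ≤ N ∧ IsMarkoff m}.ncard

theorem numbers_eq (N : ℕ) : numbers N = Pool.Agent.H499R2.mkN N := by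
  classical
  unfold numbers Pool.Agent.H499R2.mkN
  rw [← Set.ncard_coe_finset]
  congr 1
  ext m
  simp only [Set.mem_ofPred_eq, Finset.coe_filter, Finset.mem_Icc]
  have h : IsMarkoff m ↔ 1 ≤ m ∧ Pool.Agent.H499R2.Mk m := Pool.Agent.H609R3.NM.P_iff
  rw [h]
  tauto

theorem result : ∃ C : ℝ, 0 < C ∧
    Tendsto (fun N : ℕ => (triples N : ℝ) / (Real.log N) ^ 2) atTop (nhds C) ∧
    (∀ ε : ℝ, 0 < ε → ∃ K : ℝ, ∀ n : ℕ, 1 ≤ n →
      |Real.log (markoff n) - Real.sqrt n / Real.sqrt C| ≤ K * (n : ℝ) ^ ε) ∧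
    (∀ ε : ℝ, 0 < ε → ∃ K : ℝ, ∀ N : ℕ, 3 ≤ N →
      |(numbers N : ℝ) - C * (Real.log N) ^ 2| ≤ K * (Real.log N) ^ (1 + ε)) := by
  obtain ⟨c, hc, h⟩ := Pool.Agent.H609R3.NM.tri_asymp
  refine ⟨c, hc, Pool.Agent.H609R3.NM.tri_limit h, fun ε hε => ?_, fun ε hε => ?_⟩
  · exact Pool.Agent.TH913.MK.NN.log_mk ε hε hc h
  · obtain ⟨K, hK⟩ := Pool.Agent.TH913.MK.NN.mkN_asymp ε hε hc h
    refine ⟨K, fun N hN => ?_⟩
    rw [numbers_eq]
    exact hK N hN

end Pool.Agent.Results.MP_94ab62_nt.EpsilonExponent
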